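import Pool.Agent.Helper78.ME.Wk

/-! # The function of the itinerary machine -/

namespace Pool.Agent.Helper13.ME

open Pool.Agent.Helper65.LinSpace Finset Pool.Agent.Helper78.ME

/-- Digits after adding a multiple of a power. -/
theorem dig_add_low {q : ℕ} (hq : 0 < q) (y w n : ℕ) {t : ℕ} (ht : t < n) :
    dig q (y + q ^ n * w) t = dig q y t := by
  unfold dig
  obtain ⟨c, rfl⟩ := Nat.exists_eq_add_of_lt ht
  have e : q ^ (t + c + 1) * w = q ^ t * (q * (q ^ c * w)) := by ring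
  rw [e, Nat.add_mul_div_left _ _ (by positivity), Nat.add_mul_mod_self_left]

theorem dig_add_top {q : ℕ} {y w n : ℕ} (hy : y < q ^ n) (hw : w < q) :
    dig q (y + q ^ n * w) n = w := by
  unfold dig
  have h0 : 0 < q ^ n := by omega
  rw [Nat.add_mul_div_left _ _ h0, Nat.div_eq_of_lt hy, Nat.zero_add, Nat.mod_eq_of_lt hw]

theorem add_lt_pow {q : ℕ} {y w n : ℕ} (hy : y < q ^ n) (hw : w < q) :
    y + q ^ n * w < q ^ (n + 1) := by
  have h1 : q ^ n * (w + 1) ≤ q ^ n * q := Nat.mul_le_mul_left _ hw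
  rw [pow_succ]
  have h2 : q ^ n * (w + 1) = q ^ n * w + q ^ n := by ring
  omega

section
variable {m : Wk} (hm : m.Good)

/-- The word which is appended in the step `n`. -/
def wd (m : Wk) (i π z n y : ℕ) : ℕ :=
  m.nx (m.evA (m.gE i z 0 % 2 ^ m.σ) y (i * (m.e * m.d) + n))
      (m.rd i π z n (m.evA (m.gE i z 0 % 2 ^ m.σ) y (i * (m.e * m.d) + n)) y) % 2 ^ m.σ

theorem wd_lt (i π z n y : ℕ) : wd m i π z n y < 2 ^ m.σ := Nat.mod_lt _ (by positivity)

theorem gen_zero (i π z : ℕ) : m.gen i π z 0 = z % 2 ^ (i * m.wn) := rfl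

theorem gen_succ (i π z n : ℕ) : m.gen i π z (n + 1) =
    m.gen i π z n + (2 ^ m.σ) ^ (i * (m.e * m.d) + n) * wd m i π z n (m.gen i π z n) := by
  rw [← pow_mul]
  rfl

theorem gen_lt (i π z n : ℕ) : m.gen i π z n < (2 ^ m.σ) ^ (i * (m.e * m.d) + n) := by
  induction n with
  | zero =>
    rw [gen_zero, ← pow_mul]
    have e : m.σ * (i * (m.e * m.d) + 0) = i * m.wn := by
      unfold Wk.wn
      ring
    rw [e]
    exact Nat.mod_lt _ (by positivity)
  | succ n ih =>
    rw [gen_succ, ← Nat.add_assoc]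
    exact add_lt_pow ih (wd_lt _ _ _ _ _)

theorem gen_dig (i π z : ℕ) {n n' t : ℕ} (hn : n ≤ n') (ht : t < i * (m.e * m.d) + n) :
    dig (2 ^ m.σ) (m.gen i π z n') t = dig (2 ^ m.σ) (m.gen i π z n) t := by
  induction n' with
  | zero =>
    have : n = 0 := by omega
    rw [this]
  | succ n' ih =>
    rcases Nat.eq_or_lt_of_le hn with h | h
    · rw [h]
    · rw [gen_succ, dig_add_low (by positivity) _ _ _ (by omega)]
      exact ih (by omega)

include hm in
theorem te_lt (b n : ℕ) : m.mach.te b n < (2 ^ m.σ) ^ n := tab_lt fun _ _ => hm.ev_lt _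

include hm in
theorem ct_lt (b x : ℕ) : m.mach.ct b x < 2 ^ (m.s * m.N) := by
  rw [pow_mul]
  exact tab_lt fun i _ => hm.mem_lt _ _

include hm in
theorem tn_lt (b x : ℕ) : m.mach.tn b x < 2 ^ m.wc := by
  have h1 := hm.ev_lt (b * (m.e * (m.e * m.d)))
  have h2 := ct_lt hm b x
  have e : m.mach.tn b x = (m.conf (b * (m.e * (m.e * m.d)))).1 + 2 ^ m.σ * m.mach.ct b x := rfl
  rw [e]
  unfold Wk.wc
  rw [pow_add]
  have h3 : 2 ^ m.σ * (m.mach.ct b x + 1) ≤ 2 ^ m.σ * 2 ^ (m.s * m.N) :=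
    Nat.mul_le_mul_left _ h2
  rw [Nat.mul_add] at h3
  omega

include hm in
theorem tn_mod (b x : ℕ) : m.mach.tn b x % 2 ^ m.σ = (m.conf (b * (m.e * (m.e * m.d)))).1 := by
  have h1 := hm.ev_lt (b * (m.e * (m.e * m.d)))
  have e : m.mach.tn b x = (m.conf (b * (m.e * (m.e * m.d)))).1 + 2 ^ m.σ * m.mach.ct b x := rfl
  rw [e, Nat.add_mul_mod_self_left, Nat.mod_eq_of_lt h1]

include hm in
theorem tn_div (b x : ℕ) : m.mach.tn b x / 2 ^ m.σ = m.mach.ct b x := by
  have h1 := hm.ev_lt (b * (m.e * (m.e * m.d)))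
  have e : m.mach.tn b x = (m.conf (b * (m.e * (m.e * m.d)))).1 + 2 ^ m.σ * m.mach.ct b x := rfl
  rw [e, Nat.add_mul_div_left _ _ (by positivity), Nat.div_eq_of_lt h1, Nat.zero_add]

theorem zF_eq (b i π : ℕ) : m.mach.zF b i π = m.mach.te b (i * (m.e * m.d)) +
    2 ^ (i * m.wn) * tab (2 ^ m.wc) (m.k * m.e) fun j => m.mach.tn b (dig (2 ^ m.lam) π j) := rfl

theorem pow_wn (i : ℕ) : 2 ^ (i * m.wn) = (2 ^ m.σ) ^ (i * (m.e * m.d)) := by
  rw [← pow_mul]
  unfold Wk.wn
  congr 1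
  ring

include hm in
theorem z_mod (b i π : ℕ) :
    m.mach.zF b i π % 2 ^ (i * m.wn) = m.mach.te b (i * (m.e * m.d)) := by
  rw [zF_eq, Nat.add_mul_mod_self_left, Nat.mod_eq_of_lt]
  rw [pow_wn]
  exact te_lt hm _ _

include hm in
theorem z_div (b i π : ℕ) : m.mach.zF b i π / 2 ^ (i * m.wn) =
    tab (2 ^ m.wc) (m.k * m.e) fun j => m.mach.tn b (dig (2 ^ m.lam) π j) := by
  rw [zF_eq, Nat.add_mul_div_left _ _ (by positivity), Nat.div_eq_of_lt, Nat.zero_add]
  rw [pow_wn]
  exact te_lt hm _ _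

include hm in
theorem gE_eq (b i π : ℕ) {l : ℕ} (hl : l < m.k * m.e) :
    m.gE i (m.mach.zF b i π) l = m.mach.tn b (dig (2 ^ m.lam) π l) := by
  unfold Wk.gE
  rw [z_div hm]
  exact dig_tab (fun j _ => tn_lt hm b _) hl

include hm in
theorem gE_zero (b i π : ℕ) :
    m.gE i (m.mach.zF b i π) 0 % 2 ^ m.σ = (m.conf (b * (m.e * (m.e * m.d)))).1 := by
  rw [gE_eq hm b i π (Nat.mul_pos hm.hk hm.he), tn_mod hm]

/-- `evA` for a code with the right digits. -/
theorem evA_right {b n y : ℕ}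
    (hy : ∀ t < n, dig (2 ^ m.σ) y t = (m.conf (b * (m.e * (m.e * m.d)) + t + 1)).1) {T : ℕ}
    (hT : T ≤ n) : m.evA (m.conf (b * (m.e * (m.e * m.d)))).1 y T =
      (m.conf (b * (m.e * (m.e * m.d)) + T)).1 := by
  unfold Wk.evA
  rcases Nat.eq_zero_or_pos T with h | h
  · rw [h]
    rfl
  · rw [ifz_ne (by omega), hy (T - 1) (by omega)]
    congr 2
    omega

/-- The right itinerary. -/
def pi0 (m : Wk) (b i : ℕ) : ℕ := tab (2 ^ m.lam) (m.k * m.e) fun h =>
  m.cb (m.pos (m.conf (b * (m.e * (m.e * m.d)) + (i * (m.e * m.d) + h / m.k * m.d))).1 (h % m.k))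

include hm in
theorem pi0_lt (b i : ℕ) : pi0 m b i < 2 ^ (m.lam * (m.k * m.e)) := by
  rw [pow_mul]
  exact tab_lt fun _ _ => hm.cb_lt _

include hm in
theorem dig_pi0 (b i : ℕ) {h : ℕ} (hh : h < m.k * m.e) : dig (2 ^ m.lam) (pi0 m b i) h =
    m.cb (m.pos (m.conf (b * (m.e * (m.e * m.d)) + (i * (m.e * m.d) + h / m.k * m.d))).1
      (h % m.k)) := dig_tab (fun _ _ => hm.cb_lt _) hh

include hm in
theorem claim (hL : LKT_stmt) (b i π : ℕ) {l : ℕ} (hl : l ≤ m.e)
    (hπ : ∀ h < l * m.k, dig (2 ^ m.lam) π h = dig (2 ^ m.lam) (pi0 m b i) h) :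
    ∀ n ≤ l * m.d, ∀ t < i * (m.e * m.d) + n,
      dig (2 ^ m.σ) (m.gen i π (m.mach.zF b i π) n) t =
        (m.conf (b * (m.e * (m.e * m.d)) + t + 1)).1 := by
  intro n
  induction n with
  | zero =>
    intro _ t ht
    rw [gen_zero, z_mod hm]
    exact dig_tab (fun _ _ => hm.ev_lt _) ht
  | succ n ih =>
    intro hn t ht
    have ih' := ih (by omega)
    set z := m.mach.zF b i π with hz
    set y := m.gen i π z n with hy
    rw [gen_succ, ← hy]
    rcases Nat.lt_or_ge t (i * (m.e * m.d) + n) with h | h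
    · rw [dig_add_low (by positivity) _ _ _ h]
      exact ih' t h
    · have ht' : t = i * (m.e * m.d) + n := by omega
      rw [ht', dig_add_top (gen_lt i π z n) (wd_lt _ _ _ _ _)]
      unfold wd
      rw [gE_zero hm, evA_right ih' le_rfl]
      set v := (m.conf (b * (m.e * (m.e * m.d)) + (i * (m.e * m.d) + n))).1 with hv
      have hd := hm.hd
      have hnd : n / m.d < l := (Nat.div_lt_iff_lt_mul hd).2 (by omega)
      have hj := hm.aj_lt v
      have hh : n / m.d * m.k + m.aj v < l * m.k := by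
        have h1 : (n / m.d + 1) * m.k ≤ l * m.k := Nat.mul_le_mul_right _ hnd
        rw [Nat.add_mul] at h1
        omega
      have hhE : n / m.d * m.k + m.aj v < m.k * m.e := by
        have h1 : l * m.k ≤ m.e * m.k := Nat.mul_le_mul_right _ hl
        rw [Nat.mul_comm m.k m.e]
        omega
      have e1 : (n / m.d * m.k + m.aj v) / m.k = n / m.d := by
        rw [Nat.mul_comm, Nat.mul_add_div hm.hk, Nat.div_eq_of_lt hj, Nat.add_zero]
      have e2 : (n / m.d * m.k + m.aj v) % m.k = m.aj v := by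
        rw [Nat.mul_comm, Nat.mul_add_mod, Nat.mod_eq_of_lt hj]
      have hx : dig (2 ^ m.lam) π (n / m.d * m.k + m.aj v) =
          m.cb (m.pos (m.conf (b * (m.e * (m.e * m.d)) + (i * (m.e * m.d) +
            n / m.d * m.d))).1 (m.aj v)) := by
        rw [hπ _ hh, dig_pi0 hm b i hhE, e1, e2]
      have hgeo := hm.geo (b * (m.e * (m.e * m.d)) + (i * (m.e * m.d) + n / m.d * m.d))
        (n % m.d) (m.aj v) (Nat.mod_lt _ hd) hj
      have e3 : b * (m.e * (m.e * m.d)) + (i * (m.e * m.d) + n / m.d * m.d) + n % m.d =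
          b * (m.e * (m.e * m.d)) + (i * (m.e * m.d) + n) := by
        have := Nat.div_add_mod n m.d
        rw [Nat.mul_comm] at this
        omega
      rw [e3, ← hv, ← hx] at hgeo
      change m.ix _ (m.ap v) < m.N ∧ m.cel _ (m.ix _ (m.ap v)) = m.ap v at hgeo
      have hrd : m.rd i π z n v y =
          (m.conf (b * (m.e * (m.e * m.d)) + (i * (m.e * m.d) + n))).2 (m.ap v) := by
        unfold Wk.rd
        rw [hz, gE_eq hm b i π hhE, tn_div hm]
        have e4 : dig (2 ^ m.s) (m.mach.ct b (dig (2 ^ m.lam) π (n / m.d * m.k + m.aj v)))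
            (m.ix (dig (2 ^ m.lam) π (n / m.d * m.k + m.aj v)) (m.ap v)) =
            (m.conf (b * (m.e * (m.e * m.d)))).2 (m.ap v) := by
          have e5 : m.mach.ct b (dig (2 ^ m.lam) π (n / m.d * m.k + m.aj v)) =
            tab (2 ^ m.s) m.N fun c => (m.conf (b * (m.e * (m.e * m.d)))).2
              (m.cel (dig (2 ^ m.lam) π (n / m.d * m.k + m.aj v)) c) := rfl
          rw [e5, dig_tab (fun _ _ => hm.mem_lt _ _) hgeo.1, hgeo.2]
        rw [e4]
        exact hL m hm b (i * (m.e * m.d) + n) y ih' _ le_rfl _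
      rw [hrd]
      have e6 : (m.conf (b * (m.e * (m.e * m.d)) + (i * (m.e * m.d) + n) + 1)).1 =
          m.nx v ((m.conf (b * (m.e * (m.e * m.d)) + (i * (m.e * m.d) + n))).2 (m.ap v)) := rfl
      rw [← e6, Nat.mod_eq_of_lt (hm.ev_lt _)]

end

/-- The function of the itinerary machine gives the events for exactly one itinerary. -/
theorem WF (hL : LKT_stmt) : WF_stmt := by
  intro m hm b i hi
  refine ⟨pi0 m b i, pi0_lt hm b i, fun π hπ => ?_⟩
  have hd := hm.hd
  have he := hm.he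
  have hk := hm.hk
  have hmin : min i (m.e - 1) = i := by omega
  unfold Wk.F
  rw [hmin]
  set z := m.mach.zF b i π with hz
  set y := m.gen i π z (m.e * m.d) with hy
  have hylt : y < (2 ^ m.σ) ^ (i * (m.e * m.d) + m.e * m.d) := gen_lt i π z _
  by_cases hp : π = pi0 m b i
  · rw [if_pos hp]
    have hr : ∀ t < i * (m.e * m.d) + m.e * m.d, dig (2 ^ m.σ) y t =
        (m.conf (b * (m.e * (m.e * m.d)) + t + 1)).1 :=
      claim hm hL b i π le_rfl (fun h _ => congrArg (fun x => dig (2 ^ m.lam) x h) hp) _ le_rfl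
    have hchk : m.chk i π z y = 0 := by
      unfold Wk.chk
      refine sum_eq_zero fun h hh => ?_
      rw [mem_range] at hh
      have h1 : h / m.k < m.e := (Nat.div_lt_iff_lt_mul hk).2 (by rwa [Nat.mul_comm])
      have h2 : h / m.k * m.d ≤ m.e * m.d := Nat.mul_le_mul_right _ h1.le
      rw [hz, gE_zero hm, evA_right hr (by omega)]
      nth_rewrite 1 [hp]
      rw [dig_pi0 hm b i hh, eq01_of rfl, Nat.sub_self]
    rw [hchk, ifz_zero, pow_wn]
    have hlt : y / (2 ^ m.σ) ^ (i * (m.e * m.d)) < (2 ^ m.σ) ^ (m.e * m.d) := by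
      rw [Nat.div_lt_iff_lt_mul (by positivity), ← pow_add, Nat.add_comm]
      exact hylt
    rw [← tab_dig _ _ hlt]
    refine tab_congr fun r hr' => ?_
    have e1 : dig (2 ^ m.σ) (y / (2 ^ m.σ) ^ (i * (m.e * m.d))) r =
        dig (2 ^ m.σ) y (i * (m.e * m.d) + r) := by
      unfold dig
      rw [Nat.div_div_eq_div_mul, ← pow_add]
    rw [e1, hr _ (by omega)]
    congr 2
    omega
  · rw [if_neg hp]
    have hex : ∃ h, h < m.k * m.e ∧
        dig (2 ^ m.lam) π h ≠ dig (2 ^ m.lam) (pi0 m b i) h := by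
      by_contra hc
      push Not at hc
      apply hp
      have h1 := hπ
      have h2 := pi0_lt hm b i
      rw [pow_mul] at h1 h2
      rw [← tab_dig π _ h1, ← tab_dig (pi0 m b i) _ h2]
      exact tab_congr fun h hh => hc h hh
    classical
    obtain ⟨hlt, hne⟩ := Nat.find_spec hex
    set h := Nat.find hex with hh
    have h1 : h / m.k < m.e := (Nat.div_lt_iff_lt_mul hk).2 (by rwa [Nat.mul_comm])
    have h2 : h / m.k * m.d ≤ m.e * m.d := Nat.mul_le_mul_right _ h1.le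
    have hc := claim hm hL b i π h1.le (fun h' hh' => by
      by_contra hcon
      have h3 : h / m.k * m.k ≤ h := Nat.div_mul_le_self _ _
      exact Nat.find_min hex (m := h') (by rw [← hh]; omega) ⟨by omega, hcon⟩) _ le_rfl
    have hr : ∀ t < i * (m.e * m.d) + h / m.k * m.d, dig (2 ^ m.σ) y t =
        (m.conf (b * (m.e * (m.e * m.d)) + t + 1)).1 := by
      intro t ht
      rw [← hc t ht]
      exact gen_dig i π z h2 ht
    have hchk : m.chk i π z y ≠ 0 := by
      unfold Wk.chk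
      have hterm : 1 - eq01 (dig (2 ^ m.lam) π h) (m.cb (m.pos
          (m.evA (m.gE i z 0 % 2 ^ m.σ) y (i * (m.e * m.d) + h / m.k * m.d)) (h % m.k))) = 1 := by
        rw [hz, gE_zero hm, evA_right hr le_rfl, eq01_ne]
        rw [← dig_pi0 hm b i hlt]
        exact hne
      have := single_le_sum (s := range (m.k * m.e)) (f := fun h =>
        1 - eq01 (dig (2 ^ m.lam) π h) (m.cb (m.pos
          (m.evA (m.gE i z 0 % 2 ^ m.σ) y (i * (m.e * m.d) + h / m.k * m.d)) (h % m.k))))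
        (fun _ _ => Nat.zero_le _) (mem_range.2 hlt)
      simp only [hterm] at this
      omega
    rw [ifz_ne hchk]

end Pool.Agent.Helper13.ME
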